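import Mathlib

namespace Pool.Agent.Results.MP_ee20a5_al.RatioGap

/-- `x` is the only rational solution of the unit and addition equations it satisfies. -/
def Rigid {n : ℕ} (x : Fin n → ℚ) : Prop :=
  ∀ y : Fin n → ℚ, (∀ i, x i = 1 → y i = 1) →
    (∀ i j k, x i + x j = x k → y i + y j = y k) → y = x

theorem result : ∃ n : ℕ, 2 ≤ n ∧ ∃ x : Fin n → ℚ, Rigid x ∧ Monotone (fun i => |x i|) ∧
    ∃ i j : Fin n, j.val = i.val + 1 ∧ 1 ≤ |x i| ∧ 2 * |x i| < |x j| := by
  refine ⟨6, by norm_num, ![1, 3, 4, 6, 8, 12], ?_, ?_, 0, 1, rfl, by simp, by simp; norm_num⟩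
  · intro y h1 h2
    have a0 := h1 0 (by simp)
    have a1 := h2 0 1 2 (by simp; norm_num)
    have a2 := h2 1 1 3 (by simp; norm_num)
    have a3 := h2 2 2 4 (by simp; norm_num)
    have a4 := h2 3 3 5 (by simp; norm_num)
    have a5 := h2 2 4 5 (by simp; norm_num)
    ext i
    fin_cases i <;> simp <;> linarith
  · rw [Fin.monotone_iff_le_succ]
    intro i
    fin_cases i <;> simp <;> norm_num

end Pool.Agent.Results.MP_ee20a5_al.RatioGap
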